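import Pool.Agent.H565R2.LO2.Dich

set_option autoImplicit false

/-!
From codes to first-order structures on the natural numbers.
-/

namespace Pool.Agent.H834V

open FirstOrder Set Pool.Agent.H565R2.FO2
open Pool.Agent.H565R2.LO2 (PerfK)

/-- The interpretation of the relation symbols given by a structure on the natural numbers. -/
def rel {L : FirstOrder.Language.{0, 0}} (S : L.Structure ℕ) : Interp L ℕ :=
  fun n R t => @FirstOrder.Language.Structure.RelMap L ℕ S n R t

/-- The code of a structure on the natural numbers. -/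
noncomputable def code {L : FirstOrder.Language.{0, 0}} (S : L.Structure ℕ) : Code L := ofI (rel S)

theorem countable_relations {L : FirstOrder.Language.{0, 0}} (hL : Countable L.Symbols) (n : ℕ) :
    Countable (L.Relations n) := by
  have hinj : Function.Injective
      (fun R : L.Relations n => (Sum.inr ⟨n, R⟩ : L.Symbols)) := by
    intro R R' h
    simpa using h
  exact hinj.countable

theorem countable_sentences {L : FirstOrder.Language.{0, 0}} (hL : Countable L.Symbols) :
    Countable L.Sentence := by
  have h1 : Cardinal.mk (Σ n, L.BoundedFormula Empty n) ≤ Cardinal.aleph0 := by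
    refine FirstOrder.Language.BoundedFormula.card_le.trans ?_
    simp only [max_le_iff, le_refl, true_and]
    have : L.card ≤ Cardinal.aleph0 := Cardinal.mk_le_aleph0_iff.2 hL
    simpa using this
  have h2 : Countable (Σ n, L.BoundedFormula Empty n) := Cardinal.mk_le_aleph0_iff.1 h1
  have hinj : Function.Injective
      (fun σ : L.Sentence => (⟨0, σ⟩ : Σ n, L.BoundedFormula Empty n)) := by
    intro σ σ' h
    simpa using h
  exact hinj.countable

theorem adapt {L : FirstOrder.Language.{0, 0}} (hR : L.IsRelational) (K : Set (Code L))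
    (h : (∃ g : ℕ → Code L, ∀ c ∈ K, ∃ n, Iso c (g n)) ∨ PerfK K) :
    (∃ g : ℕ → L.Structure ℕ, ∀ S : L.Structure ℕ, code S ∈ K →
      ∃ n : ℕ, Nonempty (@FirstOrder.Language.Equiv L ℕ ℕ S (g n))) ∨
    (∃ f : (ℕ → Bool) → L.Structure ℕ, (∀ x : ℕ → Bool, code (f x) ∈ K) ∧
      (∀ x y : ℕ → Bool, Nonempty (@FirstOrder.Language.Equiv L ℕ ℕ (f x) (f y)) → x = y) ∧
      (∀ (n : ℕ) (R : L.Relations n) (a : Fin n → ℕ),
        IsClopen {x : ℕ → Bool | @FirstOrder.Language.Structure.RelMap L ℕ (f x) n R a})) := by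
  classical
  let str : Code L → L.Structure ℕ := fun c =>
    { funMap := fun {n} f => (hR n).elim f
      RelMap := fun {n} R t => c ⟨n, R, t⟩ = true }
  have hcs : ∀ c : Code L, code (str c) = c := by
    intro c
    funext p
    rw [Bool.eq_iff_iff]
    simp only [code, ofI, decide_eq_true_eq]
    exact Iff.rfl
  have hIso1 : ∀ (S : L.Structure ℕ) (c : Code L), Iso (code S) c →
      Nonempty (@FirstOrder.Language.Equiv L ℕ ℕ S (str c)) := by
    rintro S c ⟨g, hg⟩
    refine ⟨@FirstOrder.Language.Equiv.mk L ℕ ℕ S (str c) g ?_ ?_⟩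
    · intro n f
      exact (hR n).elim f
    · intro n R t
      have h1 := hg n R t
      rw [Bool.eq_iff_iff] at h1
      simp only [code, ofI, decide_eq_true_eq] at h1
      exact h1.symm
  have hIso2 : ∀ (c c' : Code L), Nonempty (@FirstOrder.Language.Equiv L ℕ ℕ (str c) (str c')) →
      Iso c c' := by
    rintro c c' ⟨g⟩
    refine ⟨@FirstOrder.Language.Equiv.toEquiv L ℕ ℕ (str c) (str c') g, fun n R t => ?_⟩
    rw [Bool.eq_iff_iff]
    exact (@FirstOrder.Language.Equiv.map_rel' L ℕ ℕ (str c) (str c') g n R t).symm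
  rcases h with ⟨g, hg⟩ | ⟨f, hf1, hf2, hf3⟩
  · left
    refine ⟨fun n => str (g n), fun S hS => ?_⟩
    obtain ⟨n, hn⟩ := hg (code S) hS
    exact ⟨n, hIso1 S _ hn⟩
  · right
    refine ⟨fun x => str (f x), fun x => by rw [hcs]; exact hf2 x,
      fun x y h => hf3 x y (hIso2 _ _ h), fun n R a => ?_⟩
    have h1 : Continuous (fun x => f x ⟨n, R, a⟩) := (continuous_apply _).comp hf1
    exact (isClopen_discrete {true}).preimage h1

end Pool.Agent.H834V
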